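import Pool.Agent.RM.Main

/-!
# The principle `P` is equivalent to `SADS` over `RCA₀`

The definitions are in `Pool.Agent.RM.Defs`.
-/

namespace Pool.Agent.Results.MP_d7d825_lc.EquivSADS

universe u

open Pool.Agent.RM

/-- In every model `(M, S)` of `RCA₀`, the principle `P` (each infinite weakly stable partial order
has an infinite stable suborder) holds if and only if `SADS` holds. -/
theorem result (M : Type u) [CommSemiring M] [LinearOrder M] [IsStrictOrderedRing M]
    [CanonicallyOrderedAdd M] (S : Set (Set M)) (h : RCA0 M S) :
    PrincipleP S ↔ SADS S :=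
  ⟨sads_of_principle, principle_of_sads⟩

end Pool.Agent.Results.MP_d7d825_lc.EquivSADS
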